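import Mathlib

set_option autoImplicit false

/-!
# A field extension without new algebraic elements is linearly disjoint from the algebraic elements
-/

namespace Pool.Agent.Y954.AL

open Polynomial IntermediateField

section General

variable {k F Ω : Type*} [Field k] [Field F] [Field Ω] [Algebra k F] [Algebra F Ω] [Algebra k Ω]
  [IsScalarTower k F Ω]

/-- degrees do not drop over a field whose algebraic elements are in the base field -/
theorem natDegree_minpoly (hF : ∀ z : F, IsAlgebraic k z → z ∈ Set.range (algebraMap k F)) {θ : Ω}
    (hθ : IsIntegral k θ) :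
    (minpoly F θ).natDegree = (minpoly k θ).natDegree := by
  have hθF : IsIntegral F θ := hθ.tower_top
  have hd : minpoly F θ ∣ (minpoly k θ).map (algebraMap k F) :=
    minpoly.dvd_map_of_isScalarTower k F θ
  have hl := integralClosure.mem_lifts_of_monic_of_dvd_map F (minpoly.monic hθ)
    (minpoly.monic hθF) hd
  have hcoef : ∀ n, (minpoly F θ).coeff n ∈ Set.range (algebraMap k F) := by
    intro n
    rw [lifts_iff_coeff_lifts] at hl
    obtain ⟨z, hz⟩ := hl n
    have h1 : IsIntegral k ((z : F)) := z.2
    rw [← hz]
    exact hF _ h1.isAlgebraic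
  obtain ⟨q, hq⟩ : ∃ q : k[X], q.map (algebraMap k F) = minpoly F θ := by
    have := (lifts_iff_coeff_lifts (f := algebraMap k F) (minpoly F θ)).2 hcoef
    exact (mem_lifts _).1 this
  have hq0 : aeval θ q = 0 := by
    have h1 : aeval θ (q.map (algebraMap k F)) = 0 := by rw [hq]; exact minpoly.aeval F θ
    rwa [aeval_map_algebraMap] at h1
  have hqne : q ≠ 0 := by
    rintro rfl
    rw [Polynomial.map_zero] at hq
    exact minpoly.ne_zero hθF hq.symm
  apply le_antisymm
  · have h1 := natDegree_le_of_dvd hd
      ((minpoly.monic hθ).map (algebraMap k F)).ne_zero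
    rwa [natDegree_map] at h1
  · have h1 := natDegree_le_of_dvd (minpoly.dvd k θ hq0) hqne
    rwa [← hq, natDegree_map]

/-- linear disjointness from the field of all algebraic elements -/
theorem lin_indep [CharZero k]
    (hF : ∀ z : F, IsAlgebraic k z → z ∈ Set.range (algebraMap k F)) {ι : Type*} [Finite ι]
    {α : ι → Ω} (hα : ∀ i, IsIntegral k (α i)) (hind : LinearIndependent k α) :
    LinearIndependent F α := by
  have hint : ∀ x ∈ Set.range α, IsIntegral k x := by
    rintro _ ⟨i, rfl⟩
    exact hα i
  have hfin : FiniteDimensional k (adjoin k (Set.range α)) := finiteDimensional_adjoin hint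
  obtain ⟨θ, hθ⟩ := Field.exists_primitive_element k (adjoin k (Set.range α))
  obtain ⟨t, ht⟩ : ∃ t : Ω, t = (θ : Ω) := ⟨_, rfl⟩
  have htint : IsIntegral k t := by
    have : IsIntegral k θ := Algebra.IsIntegral.isIntegral θ
    rw [ht]
    exact this.map (adjoin k (Set.range α)).val
  have hEt : adjoin k {t} = adjoin k (Set.range α) := by
    have h1 := lift_adjoin_simple k (adjoin k (Set.range α)) θ
    rw [ht, ← h1, hθ, lift_top]
  have hdeg := natDegree_minpoly hF htint
  have hpow : LinearIndependent F
      (fun i : Fin (minpoly k t).natDegree => t ^ (i : ℕ)) := by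
    have h1 := linearIndependent_pow (K := F) t
    rwa [hdeg] at h1
  have hld : (adjoin k {t} : IntermediateField k Ω).LinearDisjoint F := by
    refine LinearDisjoint.of_basis_left (adjoin.powerBasis htint).basis ?_
    have h2 : ((adjoin k {t} : IntermediateField k Ω).val ∘ (adjoin.powerBasis htint).basis)
        = fun i : Fin (adjoin.powerBasis htint).dim => t ^ (i : ℕ) := by
      funext i
      rw [Function.comp_apply, PowerBasis.coe_basis]
      simp only [map_pow]
      rfl
    rw [h2]
    exact hpow
  have hmem : ∀ i, α i ∈ (adjoin k {t} : IntermediateField k Ω) := by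
    intro i
    rw [hEt]
    exact subset_adjoin k _ ⟨i, rfl⟩
  have h3 : LinearIndependent k
      (fun i => (⟨α i, hmem i⟩ : (adjoin k {t} : IntermediateField k Ω))) := by
    refine LinearIndependent.of_comp (adjoin k {t} : IntermediateField k Ω).val.toLinearMap ?_
    exact hind
  exact hld.linearIndependent_left h3

end General

end Pool.Agent.Y954.AL
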